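import Pool.Agent.AT6.Stmts3
import Pool.Agent.Helper94_PP.LemQ

/-!
# Squad AT6, module DIM: an orthonormal basis of the functions on the regular elements spanned by
the characters in a block
-/

open scoped BigOperators InnerProductSpace

noncomputable section

namespace Pool.Agent.PP.T6.H41

open Pool.Agent.Helper51_AWC Pool.Agent.Helper79_WRA Pool.Agent.PP Pool.Agent.PP.KF
open Pool.Agent.PP.K9 Pool.Agent.PP.K9.H97 Pool.Agent.PP.H75 Pool.Agent.PP.T3 Pool.Agent.PP.T2

attribute [local instance] Ideal.Quotient.field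

/-- the sum over the regular elements as a sum over a type -/
theorem sum_reg {H : Type} [Group H] (ℓ : ℕ) [Fintype {s : H // Reg ℓ s}] (f : H → ℂ) :
    ∑ᶠ (s : H) (_ : Reg ℓ s), f s = ∑ s : {s : H // Reg ℓ s}, f s := by
  rw [← finsum_eq_sum_of_fintype]
  exact (finsum_subtype_eq_finsum_cond (f := f) (Reg ℓ)).symm

/-- abstract form: the span of finitely many functions with a reproducing kernel -/
theorem onb {R : Type} [Fintype R] [DecidableEq R] {I : Type} [Fintype I] (F : I → R → ℂ) (c : ℂ)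
    (n : ℕ)
    (hrep : ∀ i s, ∑ s' : R, (c * ∑ k, F k s * starRingEnd ℂ (F k s')) * F i s' = F i s)
    (htr : (n : ℂ) = ∑ s : R, c * ∑ k, F k s * starRingEnd ℂ (F k s)) :
    ∃ B : Fin n → R → ℂ, (∀ i k, ∑ s, B i s * starRingEnd ℂ (B k s) = if i = k then 1 else 0) ∧
      ∀ i s, F i s = ∑ k, (∑ s', F i s' * starRingEnd ℂ (B k s')) * B k s := by
  classical
  let A : Matrix R R ℂ := Matrix.of fun s s' => c * ∑ k, F k s * starRingEnd ℂ (F k s')
  let S' : Submodule ℂ (R → ℂ) := Submodule.span ℂ (Set.range F)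
  have hA : ∀ x : R → ℂ, Matrix.toLin' A x ∈ S' := by
    intro x
    have h1 : Matrix.toLin' A x = ∑ k, (c * ∑ s', starRingEnd ℂ (F k s') * x s') • F k := by
      funext s
      rw [Matrix.toLin'_apply, Matrix.mulVec, dotProduct, Finset.sum_apply]
      simp only [A, Matrix.of_apply, Pi.smul_apply, smul_eq_mul]
      simp only [Finset.mul_sum, Finset.sum_mul]
      rw [Finset.sum_comm]
      refine Finset.sum_congr rfl fun k _ => Finset.sum_congr rfl fun s' _ => ?_
      ring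
    rw [h1]
    exact Submodule.sum_mem _ fun k _ => Submodule.smul_mem _ _ (Submodule.subset_span ⟨k, rfl⟩)
  have hfix : ∀ x ∈ S', Matrix.toLin' A x = x := by
    intro x hx
    induction hx using Submodule.span_induction with
    | mem x hx =>
        obtain ⟨i, rfl⟩ := hx
        funext s
        rw [Matrix.toLin'_apply, Matrix.mulVec, dotProduct]
        simp only [A, Matrix.of_apply]
        exact hrep i s
    | zero => exact map_zero _
    | add x y _ _ hx hy => rw [map_add, hx, hy]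
    | smul a x _ hx => rw [map_smul, hx]
  have hproj : LinearMap.IsProj S' (Matrix.toLin' A) := ⟨hA, hfix⟩
  have htr2 : (Module.finrank ℂ S' : ℂ) = (n : ℂ) := by
    rw [← hproj.trace, Matrix.trace_toLin'_eq, htr, Matrix.trace]
    simp only [A, Matrix.diag_apply, Matrix.of_apply]
  have hfr : Module.finrank ℂ S' = n := by exact_mod_cast htr2
  let L : (R → ℂ) ≃ₗ[ℂ] EuclideanSpace ℂ R := (WithLp.linearEquiv 2 ℂ (R → ℂ)).symm
  let S : Submodule ℂ (EuclideanSpace ℂ R) := S'.map (L : (R → ℂ) →ₗ[ℂ] EuclideanSpace ℂ R)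
  have hS : Module.finrank ℂ S = n := by
    rw [← hfr]
    exact LinearEquiv.finrank_map_eq L S'
  let B0 : OrthonormalBasis (Fin n) ℂ S := (stdOrthonormalBasis ℂ S).reindex (finCongr hS)
  refine ⟨fun i s => (B0 i : EuclideanSpace ℂ R) s, ?_, ?_⟩
  · intro i k
    have h1 := B0.inner_eq_ite k i
    have h2 : ⟪B0 k, B0 i⟫_ℂ = ∑ s, (B0 i : EuclideanSpace ℂ R) s *
        starRingEnd ℂ ((B0 k : EuclideanSpace ℂ R) s) := by
      rw [Submodule.coe_inner, PiLp.inner_apply]
      refine Finset.sum_congr rfl fun s _ => ?_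
      rw [RCLike.inner_apply]
    rw [← h2, h1]
    by_cases h : i = k
    · rw [if_pos h, if_pos h.symm]
    · rw [if_neg h, if_neg (Ne.symm h)]
  · intro i s
    have hmem : L (F i) ∈ S := ⟨F i, Submodule.subset_span ⟨i, rfl⟩, rfl⟩
    have h1 := B0.sum_repr' ⟨L (F i), hmem⟩
    have h2 := congrArg (fun x : S => (x : EuclideanSpace ℂ R) s) h1
    have h3 : (((∑ k, ⟪B0 k, (⟨L (F i), hmem⟩ : S)⟫_ℂ • B0 k : S) : EuclideanSpace ℂ R)) s =
        ∑ k, ⟪B0 k, (⟨L (F i), hmem⟩ : S)⟫_ℂ * (B0 k : EuclideanSpace ℂ R) s := by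
      rw [Submodule.coe_sum, WithLp.ofLp_sum, Finset.sum_apply]
      exact Finset.sum_congr rfl fun k _ => rfl
    have h4 : F i s = ∑ k, ⟪B0 k, (⟨L (F i), hmem⟩ : S)⟫_ℂ * (B0 k : EuclideanSpace ℂ R) s := by
      rw [← h3]
      exact h2.symm
    rw [h4]
    refine Finset.sum_congr rfl fun k _ => ?_
    congr 1

/-- DIM -/
theorem dim (hWBO : WboStmt) (hLRK : LrkStmt) : DimStmt := by
  classical
  intro ℓ _ M _ hM H _ _ b hb
  have := Fintype.ofFinite H
  have hfin : (IrrE M b).Finite := irr_finite'.subset fun χ hχ => hχ.1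
  let I := {κ : H → ℂ // κ ∈ IrrE M b}
  have : Finite I := hfin.to_subtype
  have := Fintype.ofFinite I
  let R := {s : H // Reg ℓ s}
  let F : I → R → ℂ := fun κ s => κ.1 s
  have hc : (Nat.card H : ℂ) ≠ 0 := by exact_mod_cast Nat.card_pos.ne'
  have hsum : ∀ f : (H → ℂ) → ℂ, ∑ᶠ χ ∈ IrrE M b, f χ = ∑ κ : I, f κ.1 := by
    intro f
    rw [← finsum_eq_sum_of_fintype]
    exact (finsum_subtype_eq_finsum_cond (f := f) (fun χ => χ ∈ IrrE M b)).symm
  obtain ⟨B, hB1, hB2⟩ := onb F (Nat.card H : ℂ)⁻¹ (ln b) (by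
    intro i s
    -- the sum over all elements
    have h0 : ∀ g : H, ¬ Reg ℓ g → ∑ k : I, k.1 s * starRingEnd ℂ (k.1 g) = 0 := by
      intro g hg
      have h1 := hWBO ℓ M hM H b hb s g s.2 hg
      rw [hsum (fun χ => χ (s : H)⁻¹ * χ g)] at h1
      have h2 := congrArg (starRingEnd ℂ) h1
      rw [map_sum, map_zero] at h2
      rw [← h2]
      refine Finset.sum_congr rfl fun k _ => ?_
      rw [map_mul, ← H94.irr_star k.2.1 (s : H), Complex.conj_conj]
    let G0 : H → ℂ := fun g =>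
      ((Nat.card H : ℂ)⁻¹ * ∑ k : I, k.1 s * starRingEnd ℂ (k.1 g)) * i.1 g
    have h1 : ∑ s' : R, G0 s' = ∑ g : H, G0 g := by
      rw [← Finset.sum_subtype (Finset.univ.filter (Reg ℓ))
        (fun x => by rw [Finset.mem_filter]; exact ⟨fun h => h.2, fun h => ⟨Finset.mem_univ _, h⟩⟩)
        G0]
      apply Finset.sum_filter_of_ne
      intro g _ hne
      by_contra h
      apply hne
      show ((Nat.card H : ℂ)⁻¹ * ∑ k : I, k.1 s * starRingEnd ℂ (k.1 g)) * i.1 g = 0
      rw [h0 g h, mul_zero, zero_mul]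
    have h2 : ∑ g : H, G0 g = (Nat.card H : ℂ)⁻¹ * ∑ k : I, k.1 s *
        ∑ g : H, i.1 g * k.1 g⁻¹ := by
      simp only [G0, Finset.mul_sum, Finset.sum_mul]
      rw [Finset.sum_comm]
      refine Finset.sum_congr rfl fun k _ => Finset.sum_congr rfl fun g _ => ?_
      rw [H94.irr_star k.2.1]
      ring
    have h3 : ∑ k : I, k.1 (s : H) * ∑ g : H, i.1 g * k.1 g⁻¹ = i.1 s * Nat.card H := by
      rw [Finset.sum_eq_single i]
      · rw [irr_orth_self i.2.1, Nat.card_eq_fintype_card]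
      · intro k _ hk
        rw [irr_orth_ne i.2.1 k.2.1 (fun h => hk (Subtype.ext h.symm)), mul_zero]
      · intro h
        exact absurd (Finset.mem_univ _) h
    show ∑ s' : R, G0 s' = i.1 s
    rw [h1, h2, h3]
    field_simp)
    (by
      rw [hLRK ℓ M hM H b hb, sum_reg, Finset.mul_sum]
      refine Finset.sum_congr rfl fun s _ => ?_
      rw [hsum (fun χ => χ (s : H) * starRingEnd ℂ (χ s))])
  let r : ℂ := ((Real.sqrt (Nat.card H) : ℝ) : ℂ)
  have hrr : r * r = Nat.card H := by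
    show ((Real.sqrt (Nat.card H) : ℝ) : ℂ) * ((Real.sqrt (Nat.card H) : ℝ) : ℂ) = _
    rw [← Complex.ofReal_mul, Real.mul_self_sqrt (Nat.cast_nonneg _)]
    push_cast
    rfl
  have hrs : starRingEnd ℂ r = r := Complex.conj_ofReal _
  let Q : Fin (ln b) → H → ℂ := fun i s => if h : Reg ℓ s then r * B i ⟨s, h⟩ else 0
  have hQ : ∀ i (s : R), Q i s = r * B i s := by
    intro i s
    show (if h : Reg ℓ (s : H) then r * B i ⟨s, h⟩ else 0) = _
    rw [dif_pos s.2]
  refine ⟨Q, ?_, ?_⟩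
  · intro i k
    unfold T5.rip
    rw [sum_reg, ← hB1 i k, Finset.mul_sum]
    refine Finset.sum_congr rfl fun s _ => ?_
    rw [hQ, hQ, map_mul, hrs]
    calc (Nat.card H : ℂ)⁻¹ * (r * B i s * (r * starRingEnd ℂ (B k s))) =
        (Nat.card H : ℂ)⁻¹ * (r * r) * (B i s * starRingEnd ℂ (B k s)) := by ring
      _ = _ := by rw [hrr, inv_mul_cancel₀ hc, one_mul]
  · intro κ hκ s hs
    have h1 := hB2 ⟨κ, hκ⟩ ⟨s, hs⟩
    have h2 : κ s = F ⟨κ, hκ⟩ ⟨s, hs⟩ := rfl
    rw [h2, h1]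
    refine Finset.sum_congr rfl fun k _ => ?_
    unfold T5.rip
    rw [sum_reg, hQ k ⟨s, hs⟩]
    have h3 : ∑ s' : R, κ s' * starRingEnd ℂ (Q k s') =
        r * ∑ s' : R, F ⟨κ, hκ⟩ s' * starRingEnd ℂ (B k s') := by
      rw [Finset.mul_sum]
      refine Finset.sum_congr rfl fun s' _ => ?_
      rw [hQ, map_mul, hrs]
      show κ s' * (r * starRingEnd ℂ (B k s')) = r * (κ s' * starRingEnd ℂ (B k s'))
      ring
    rw [h3]
    calc (∑ s' : R, F ⟨κ, hκ⟩ s' * starRingEnd ℂ (B k s')) * B k ⟨s, hs⟩ =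
        (Nat.card H : ℂ)⁻¹ * (Nat.card H : ℂ) *
          ((∑ s' : R, F ⟨κ, hκ⟩ s' * starRingEnd ℂ (B k s')) * B k ⟨s, hs⟩) := by
          rw [inv_mul_cancel₀ hc, one_mul]
      _ = _ := by
          rw [← hrr]
          ring

end Pool.Agent.PP.T6.H41
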