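import Pool.Agent.Helper41_AT6.FBD1
import Pool.Agent.Helper77_ML.Fin

/-!
# Squad AT6, module FBD: the bound for the number of the characters fixed by the power map
-/

open scoped BigOperators

noncomputable section

set_option linter.unusedSectionVars false

namespace Pool.Agent.PP.T6.H41

open Pool.Agent.Helper51_AWC Pool.Agent.Helper79_WRA Pool.Agent.PP Pool.Agent.PP.KF
open Pool.Agent.PP.K9 Pool.Agent.PP.K9.H97 Pool.Agent.PP.H75 Pool.Agent.PP.T3 Pool.Agent.PP.T2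

attribute [local instance] Ideal.Quotient.field

variable {G : Type} [Group G] [Finite G] {M : Ideal (integralClosure ℤ ℂ)} [M.IsMaximal]

/-- the number `|V| |T ∩ C(v) : C(V)|` -/
def am (V : Subgroup G) (γ : G → FF M) (v : G) : ℕ :=
  Nat.card V * (Subgroup.centralizer (V : Set G)).relIndex (Tg V γ ⊓ Cu v)

theorem am_pos (V : Subgroup G) (γ : G → FF M) (v : G) : 0 < am V γ v :=
  Nat.mul_pos Nat.card_pos (Nat.pos_of_ne_zero Subgroup.index_ne_zero_of_finite)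

/-- `Mm` for a power of `v`, in coordinates -/
theorem mm_eq {ℓ : ℕ} {V : Subgroup G} {γ : G → FF M} {v w : G} {b : G → FF M} {n : ℕ}
    {Q : Fin n → G → ℂ} (h : Os M ℓ v b n Q) (hC : Cu w = Cu v) {χ χ' : G → ℂ}
    (hχ : χ ∈ Irr G) (hχ' : χ' ∈ Irr G) :
    Mm M ℓ V γ w b χ χ' =
      (am V γ v : ℂ) * ∑ i, co M ℓ v b w χ (Q i) * starRingEnd ℂ (co M ℓ v b w χ' (Q i)) := by
  have hw : ∀ c ∈ Cu v, w * c = c * w := by
    intro c hc
    rw [← hC] at hc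
    exact (Subgroup.mem_centralizer_singleton_iff.1 hc).symm
  rw [← h.gram hw hχ hχ']
  unfold Mm Pm am
  rw [hC]
  push_cast
  rfl

/-- the coordinates of the section of `v`, multiplied with the weight and extended by zero -/
def vec (ℓ : ℕ) (V : Subgroup G) (γ : G → FF M) (v : G) (b : G → FF M) (n β : ℕ)
    (Q : Fin n → G → ℂ) (w : G) (χ : G → ℂ) : Fin β → ℂ :=
  ez n β fun i => ((Real.sqrt (am V γ v) : ℝ) : ℂ) * co M ℓ v b w χ (Q i)

theorem vec_gram {ℓ : ℕ} {V : Subgroup G} {γ : G → FF M} {v w : G} {b : G → FF M} {n β : ℕ}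
    {Q : Fin n → G → ℂ} (h : Os M ℓ v b n Q) (hn : n ≤ β) (hC : Cu w = Cu v) {χ χ' : G → ℂ}
    (hχ : χ ∈ Irr G) (hχ' : χ' ∈ Irr G) :
    ∑ k, vec ℓ V γ v b n β Q w χ k * starRingEnd ℂ (vec ℓ V γ v b n β Q w χ' k) =
      Mm M ℓ V γ w b χ χ' := by
  unfold vec
  rw [ez_sum hn _ _ (fun x y => x * starRingEnd ℂ y) (by simp), mm_eq h hC hχ hχ', Finset.mul_sum]
  refine Finset.sum_congr rfl fun i _ => ?_
  have hr : ((Real.sqrt (am V γ v) : ℝ) : ℂ) * ((Real.sqrt (am V γ v) : ℝ) : ℂ) = am V γ v := by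
    rw [← Complex.ofReal_mul, Real.mul_self_sqrt (Nat.cast_nonneg _)]
    push_cast
    rfl
  rw [← hr, map_mul, Complex.conj_ofReal]
  ring

theorem vec_norm {ℓ : ℕ} {V : Subgroup G} {γ : G → FF M} {v w : G} {b : G → FF M} {n β : ℕ}
    {Q : Fin n → G → ℂ} (h : Os M ℓ v b n Q) (hn : n ≤ β) (hC : Cu w = Cu v) {χ : G → ℂ}
    (hχ : χ ∈ Irr G) (hre : Mm M ℓ V γ w b χ χ = (‖Mm M ℓ V γ w b χ χ‖ : ℝ)) :
    ∑ k, Complex.normSq (vec ℓ V γ v b n β Q w χ k) = ‖Mm M ℓ V γ w b χ χ‖ := by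
  have h1 := vec_gram (V := V) (γ := γ) h hn hC hχ hχ
  rw [hre] at h1
  have h2 : ((∑ k, Complex.normSq (vec ℓ V γ v b n β Q w χ k) : ℝ) : ℂ) =
      ((‖Mm M ℓ V γ w b χ χ‖ : ℝ) : ℂ) := by
    rw [← h1]
    push_cast
    refine Finset.sum_congr rfl fun k _ => ?_
    rw [Complex.mul_conj]
  exact_mod_cast h2

/-- the left side of Bessel's inequality -/
theorem vec_pair {ℓ : ℕ} {V : Subgroup G} {γ : G → FF M} {v w : G} {b : G → FF M} {n β : ℕ}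
    {Q : Fin n → G → ℂ} (hn : n ≤ β) (χ : G → ℂ) (y : Fin β → ℂ) :
    ∑ k, vec ℓ V γ v b n β Q w χ k * starRingEnd ℂ (y k) =
      (Nat.card (Cu v) : ℂ)⁻¹ * ∑ᶠ (s : G) (_ : s ∈ Cu v ∧ Reg ℓ s),
        gv M (Cu v) (w * s) b χ * starRingEnd ℂ
          (∑ i, (((Real.sqrt (am V γ v) : ℝ) : ℂ) * y (Fin.castLE hn i)) * Q i s) := by
  rw [Os.inner χ w, vec, ez_pair hn]
  refine Finset.sum_congr rfl fun i _ => ?_
  rw [map_mul, Complex.conj_ofReal]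
  ring

/-- the right side of Bessel's inequality -/
theorem vec_rhs {ℓ : ℕ} {V : Subgroup G} {γ : G → FF M} {v : G} {b : G → FF M} {n β : ℕ}
    {Q : Fin n → G → ℂ} (h : Os M ℓ v b n Q) (hn : n ≤ β) (y : Fin β → ℂ) :
    (((Subgroup.centralizer (V : Set G)).relIndex (Tg V γ ⊓ Cu v) : ℕ) : ℝ)⁻¹ *
      ((Nat.card (Cu v) : ℝ)⁻¹ * ∑ᶠ (s : G) (_ : s ∈ Cu v ∧ Reg ℓ s), Complex.normSq
          (∑ i, (((Real.sqrt (am V γ v) : ℝ) : ℂ) * y (Fin.castLE hn i)) * Q i s)) ≤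
      Nat.card V * ∑ k, Complex.normSq (y k) := by
  have hr : (0:ℝ) < (((Subgroup.centralizer (V : Set G)).relIndex (Tg V γ ⊓ Cu v) : ℕ) : ℝ) := by
    exact_mod_cast Nat.pos_of_ne_zero Subgroup.index_ne_zero_of_finite
  rw [h.norm (fun i => ((Real.sqrt (am V γ v) : ℝ) : ℂ) * y (Fin.castLE hn i))]
  have h1 : ∑ i : Fin n, Complex.normSq (((Real.sqrt (am V γ v) : ℝ) : ℂ) *
      y (Fin.castLE hn i)) = (am V γ v : ℝ) * ∑ i : Fin n, Complex.normSq (y (Fin.castLE hn i)) := by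
    rw [Finset.mul_sum]
    refine Finset.sum_congr rfl fun i _ => ?_
    rw [Complex.normSq_mul, Complex.normSq_ofReal, Real.mul_self_sqrt (Nat.cast_nonneg _)]
  rw [h1]
  unfold am
  push_cast
  have h2 := ez_le hn y
  have h3 : (0:ℝ) ≤ Nat.card V := Nat.cast_nonneg _
  calc (((Subgroup.centralizer (V : Set G)).relIndex (Tg V γ ⊓ Cu v) : ℕ) : ℝ)⁻¹ *
      ((Nat.card V : ℝ) * ((Subgroup.centralizer (V : Set G)).relIndex (Tg V γ ⊓ Cu v) : ℝ) *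
        ∑ i : Fin n, Complex.normSq (y (Fin.castLE hn i))) =
      (Nat.card V : ℝ) * ∑ i : Fin n, Complex.normSq (y (Fin.castLE hn i)) := by
        field_simp
    _ ≤ _ := mul_le_mul_of_nonneg_left h2 h3

/-- FBD -/
theorem fbd (hCPL : CplStmt) (hPSV : PsvStmt) (hGEO : GeoStmt) (hEQM : EqmStmt) (hPGR : PgrStmt)
    (hBSL : BslStmt) (hAVG : AvgStmt) (hPIG : PigStmt) (hLOC : T3.LocStmt) (hLPW : T3.LpwStmt)
    (hPWU : T2.PwuStmt) : FbdStmt := by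
  classical
  intro ℓ hfact M _ hM G _ _ N hN e V γ hL a ha hexp c hc β hβ
  have hℓ : ℓ.Prime := hfact.out
  have hF : GoodF ℓ (FF M) := H50.fld ℓ hℓ M hM
  -- the local blocks
  have hex : ∀ v : G, ∃ b : G → FF M, v ∈ V → Lc e V γ v b := by
    intro v
    by_cases hv : v ∈ V
    · obtain ⟨b, hb⟩ := (hLOC ℓ (FF M) hF G e V γ hL v hv).1
      exact ⟨b, fun _ => hb⟩
    · exact ⟨fun _ => 0, fun h => absurd h hv⟩
  choose b hb using hex
  have hbp : ∀ v ∈ V, ∀ j : ℕ, ¬ ℓ ∣ j → Cu (v ^ j) = Cu v ∧ b (v ^ j) = b v := by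
    intro v hv j hj
    obtain ⟨h1, h2⟩ := hLPW ℓ (FF M) hF G e V γ hL v hv (b v) (hb v hv) j hj
    exact ⟨h1, (hLOC ℓ (FF M) hF G e V γ hL (v ^ j) (V.pow_mem hv j)).2 _ _
      (hb _ (V.pow_mem hv j)) h2⟩
  -- orders
  have hpow : ∀ v ∈ V, v ^ ℓ ^ a = 1 := by
    intro v hv
    have h1 : (⟨v, hv⟩ : V) ^ Monoid.exponent V = 1 := Monoid.pow_exponent_eq_one _
    rw [hexp] at h1
    exact congrArg Subtype.val h1
  let W : Subgroup G := Uw (ℓ ^ (3 * c + 1)) V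
  obtain ⟨hWmem, hWV, -⟩ := hPWU G (ℓ ^ (3 * c + 1)) V hL.ab
  have hW1 : ∀ z ∈ W, z ^ ℓ ^ (a - 1) = 1 := by
    intro z hz
    obtain ⟨v, hv, rfl⟩ := (hWmem z).1 hz
    rw [← pow_mul, ← pow_add]
    have h1 : 3 * c + 1 + (a - 1) = a + 3 * c := by omega
    rw [h1, pow_add, pow_mul, hpow v hv, one_pow]
  -- finiteness
  have := Fintype.ofFinite G
  have hRfin : (T5.Rf M N e).Finite := irr_finite'.subset fun χ hχ => hχ.1.1
  let R := {χ : G → ℂ // χ ∈ T5.Rf M N e}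
  have : Finite R := hRfin.to_subtype
  have := Fintype.ofFinite R
  have := Fintype.ofFinite V
  have := Fintype.ofFinite W
  let J := {j : ℕ // j ∈ un ℓ a}
  have hJ : ∀ j : J, ¬ ℓ ∣ (j : ℕ) := fun j => (Finset.mem_filter.1 j.2).2
  have h1un : 1 ∈ un ℓ a := Finset.mem_filter.2
    ⟨Finset.mem_range.2 (Nat.one_lt_pow ha.ne' hℓ.one_lt), hℓ.one_lt.ne' ∘ Nat.dvd_one.1⟩
  have : Nonempty J := ⟨⟨1, h1un⟩⟩
  have : Nonempty W := ⟨1⟩
  have hJcard : Fintype.card J = (un ℓ a).card := Fintype.card_coe _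
  have hmpos : 0 < (un ℓ a).card := Finset.card_pos.2 ⟨1, h1un⟩
  have hixpos : 0 < ix V γ := Nat.pos_of_ne_zero Subgroup.index_ne_zero_of_finite
  have hVpos : 0 < Nat.card V := Nat.card_pos
  have hWpos : 0 < Nat.card W := Nat.card_pos
  -- the norms
  let nn : G → (G → ℂ) → ℝ := fun v χ => ‖Mm M ℓ V γ v (b v) χ χ‖
  have hnn : ∀ v ∈ V, ∀ χ : G → ℂ, Mm M ℓ V γ v (b v) χ χ = (nn v χ : ℝ) := by
    intro v hv χ
    exact (hPSV ℓ M hM G e V γ hL v hv (b v) (hb v hv)).1 χ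
  have htot : ∀ χ : R, ∑ v : V, nn v χ = Nat.card V * ix V γ := by
    intro χ
    have h1 := hCPL ℓ M hM G e V γ hL b hb χ χ.2.1
    rw [sum_cond] at h1
    have h2 : ((∑ v : V, nn v χ : ℝ) : ℂ) = ((Nat.card V * ix V γ : ℝ) : ℂ) := by
      push_cast
      rw [← h1]
      exact Finset.sum_congr rfl fun v _ => (hnn v v.2 χ).symm
    exact_mod_cast h2
  have htotj : ∀ (χ : R) (j : J), ∑ v : V, nn ((v : G) ^ (j : ℕ)) χ = Nat.card V * ix V γ := by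
    intro χ j
    rw [← htot χ]
    have hco : (Nat.card V).Coprime (j : ℕ) := by
      obtain ⟨n, hn⟩ := IsPGroup.iff_card.1 hL.tp.pg
      rw [hn]
      exact Nat.Coprime.pow_left n ((Nat.Prime.coprime_iff_not_dvd hℓ).2 (hJ j))
    exact Fintype.sum_equiv (powCoprime hco) _ _ fun v => rfl
  -- the function of PIG
  let Fv : G → ℝ := fun v => ∑ χ : R, ∑ j : J, nn (v ^ (j : ℕ)) χ
  have hFv0 : ∀ v, 0 ≤ Fv v := fun v =>
    Finset.sum_nonneg fun χ _ => Finset.sum_nonneg fun j _ => norm_nonneg _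
  have hFsum : ∑ᶠ (v : G) (_ : v ∈ V), Fv v =
      Fintype.card R * ((un ℓ a).card * (Nat.card V * ix V γ)) := by
    rw [sum_cond]
    show ∑ v : V, ∑ χ : R, ∑ j : J, nn ((v : G) ^ (j : ℕ)) χ = _
    rw [Finset.sum_comm]
    have h1 : ∀ χ : R, ∑ v : V, ∑ j : J, nn ((v : G) ^ (j : ℕ)) χ =
        (un ℓ a).card * (Nat.card V * ix V γ) := by
      intro χ
      rw [Finset.sum_comm, Finset.sum_congr rfl fun j _ => htotj χ j, Finset.sum_const,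
        Finset.card_univ, hJcard, nsmul_eq_mul]
    rw [Finset.sum_congr rfl fun χ _ => h1 χ, Finset.sum_const, Finset.card_univ, nsmul_eq_mul]
  obtain ⟨v₀, hv₀, hord, hpig⟩ := hPIG ℓ G V hL.ab a ha hexp W hWV hW1 Fv (fun v _ => hFv0 v)
  rw [hFsum, sum_cond] at hpig
  have hvz : ∀ z : W, v₀ * (z : G) ∈ V := fun z => V.mul_mem hv₀ (hWV z.2)
  -- the good characters
  let S : R → ℝ := fun χ => ∑ z : W, ∑ j : J, nn ((v₀ * (z : G)) ^ (j : ℕ)) χ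
  have hS0 : ∀ χ, 0 ≤ S χ := fun χ =>
    Finset.sum_nonneg fun z _ => Finset.sum_nonneg fun j _ => norm_nonneg _
  let B : ℝ := 2 * ix V γ * Nat.card W * (un ℓ a).card
  have hB : 0 < B := by
    show (0:ℝ) < 2 * ix V γ * Nat.card W * (un ℓ a).card
    have h1 : (0:ℝ) < ix V γ := by exact_mod_cast hixpos
    have h2 : (0:ℝ) < Nat.card W := by exact_mod_cast hWpos
    have h3 : (0:ℝ) < (un ℓ a).card := by exact_mod_cast hmpos
    positivity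
  have hSsum : ∑ χ, S χ ≤ Fintype.card R * B := by
    have h1 : ∑ χ : R, S χ = ∑ z : W, Fv (v₀ * z) := by
      show ∑ χ : R, ∑ z : W, ∑ j : J, nn ((v₀ * (z : G)) ^ (j : ℕ)) χ = _
      rw [Finset.sum_comm]
    rw [h1]
    have h2 : (0:ℝ) < Nat.card V := by exact_mod_cast hVpos
    apply le_of_mul_le_mul_right _ h2
    calc (∑ z : W, Fv (v₀ * z)) * (Nat.card V : ℝ) ≤ 2 * Nat.card W *
          (Fintype.card R * ((un ℓ a).card * (Nat.card V * ix V γ))) := hpig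
      _ = Fintype.card R * (2 * ix V γ * Nat.card W * (un ℓ a).card) * Nat.card V := by ring
  have hmk := markov S B hB hS0 hSsum
  let X := {χ : R // S χ ≤ 2 * B}
  -- the vectors
  have hQex : ∀ z : W, ∃ Q : Fin (ln (fun t : Cu (v₀ * (z : G)) => b (v₀ * z) t)) → G → ℂ,
      Os M ℓ (v₀ * z) (b (v₀ * z)) _ Q := by
    intro z
    obtain ⟨Q, h1, h2⟩ := hPGR ℓ M hM G (v₀ * z) (b (v₀ * z)) (hb _ (hvz z)).blk.ix
    exact ⟨Q, h1, h2⟩
  choose Q hQ using hQex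
  have hln : ∀ z : W, ln (fun t : Cu (v₀ * (z : G)) => b (v₀ * z) t) ≤ β := fun z =>
    hβ _ (hvz z) (hord z z.2) _ (hb _ (hvz z))
  let bb : J → W → X → Fin β → ℂ := fun j z χ =>
    vec ℓ V γ (v₀ * z) (b (v₀ * z)) _ β (Q z) ((v₀ * (z : G)) ^ (j : ℕ)) χ.1.1
  have hCj : ∀ (z : W) (j : J), Cu ((v₀ * (z : G)) ^ (j : ℕ)) = Cu (v₀ * (z : G)) := fun z j =>
    (hbp _ (hvz z) j (hJ j)).1
  have hbj : ∀ (z : W) (j : J), b ((v₀ * (z : G)) ^ (j : ℕ)) = b (v₀ * (z : G)) := fun z j =>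
    (hbp _ (hvz z) j (hJ j)).2
  have hgram : ∀ (j : J) (z : W) (χ χ' : X), ∑ k, bb j z χ k * starRingEnd ℂ (bb j z χ' k) =
      Mm M ℓ V γ ((v₀ * (z : G)) ^ (j : ℕ)) (b (v₀ * z)) χ.1.1 χ'.1.1 := by
    intro j z χ χ'
    exact vec_gram (hQ z) (hln z) (hCj z j) χ.1.2.1.1 χ'.1.2.1.1
  have hnorm : ∀ (j : J) (z : W) (χ : X), ∑ k, Complex.normSq (bb j z χ k) =
      ‖Mm M ℓ V γ ((v₀ * (z : G)) ^ (j : ℕ)) (b (v₀ * z)) χ.1.1 χ.1.1‖ := by
    intro j z χ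
    apply vec_norm (hQ z) (hln z) (hCj z j) χ.1.2.1.1
    have h1 := (hPSV ℓ M hM G e V γ hL ((v₀ * (z : G)) ^ (j : ℕ)) (V.pow_mem (hvz z) _)
      (b ((v₀ * (z : G)) ^ (j : ℕ))) (hb _ (V.pow_mem (hvz z) _))).1 χ.1.1
    rw [hbj z j] at h1
    exact h1
  -- the sum over J
  have hsumJ : ∀ f : ℕ → ℝ, ∑ j : J, f j = ∑ j ∈ un ℓ a, f j := fun f =>
    Finset.sum_coe_sort (un ℓ a) f
  have hinj : ∀ j : J, Function.Injective fun z : W => (v₀ * (z : G)) ^ (j : ℕ) := by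
    intro j z z' hzz
    have hco : (Nat.card V).Coprime (j : ℕ) := by
      obtain ⟨n, hn⟩ := IsPGroup.iff_card.1 hL.tp.pg
      rw [hn]
      exact Nat.Coprime.pow_left n ((Nat.Prime.coprime_iff_not_dvd hℓ).2 (hJ j))
    have h1 : (powCoprime hco) ⟨v₀ * z, hvz z⟩ = (powCoprime hco) ⟨v₀ * z', hvz z'⟩ :=
      Subtype.ext hzz
    have h2 := congrArg Subtype.val ((powCoprime hco).injective h1)
    exact Subtype.ext (mul_left_cancel h2)
  -- the first hypothesis of the averaging lemma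
  have H1 : ∀ (j : J) (y : W → Fin β → ℂ),
      ∑ χ : X, Complex.normSq (∑ z, ∑ k, bb j z χ k * starRingEnd ℂ (y z k)) ≤
        (ix V γ * Nat.card V : ℝ) * ∑ z, ∑ k, Complex.normSq (y z k) := by
    intro j y
    let pz : W → G := fun z => (v₀ * (z : G)) ^ (j : ℕ)
    let q : Finset G := Finset.univ.image pz
    let Yz : W → G → ℂ := fun z s =>
      ∑ i, (((Real.sqrt (am V γ (v₀ * z)) : ℝ) : ℂ) * y z (Fin.castLE (hln z) i)) * Q z i s
    let Y : G → G → ℂ := fun u s => ∑ z : W, if pz z = u then Yz z s else 0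
    have hY : ∀ (z : W) s, Y ((v₀ * (z : G)) ^ (j : ℕ)) s = Yz z s := by
      intro z s
      show ∑ z' : W, (if pz z' = pz z then Yz z' s else 0) = _
      rw [Finset.sum_eq_single z]
      · rw [if_pos rfl]
      · intro z' _ hz'
        exact if_neg fun h => hz' (hinj j h)
      · intro h
        exact absurd (Finset.mem_univ _) h
    have hqV : ∀ v ∈ q, v ∈ V := by
      intro v hv
      obtain ⟨z, -, rfl⟩ := Finset.mem_image.1 hv
      exact V.pow_mem (hvz z) _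
    have hbsl := hBSL ℓ M hM G e V γ hL q hqV b (fun v hv => hb v (hqV v hv)) Y
    let T : (G → ℂ) → ℝ := fun χ => Complex.normSq (∑ v ∈ q, (Nat.card (Cu v) : ℂ)⁻¹ *
      ∑ᶠ (s : G) (_ : s ∈ Cu v ∧ Reg ℓ s),
        gv M (Cu v) (v * s) (b v) χ * starRingEnd ℂ (Y v s))
    have hT : ∀ χ : X, T χ.1.1 =
        Complex.normSq (∑ z, ∑ k, bb j z χ k * starRingEnd ℂ (y z k)) := by
      intro χ
      show Complex.normSq _ = _
      congr 1
      rw [Finset.sum_image fun z _ z' _ h => hinj j h]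
      refine Finset.sum_congr rfl fun z _ => ?_
      show _ = ∑ k, vec ℓ V γ (v₀ * z) (b (v₀ * z)) _ β (Q z) ((v₀ * (z : G)) ^ (j : ℕ)) χ.1.1 k *
        starRingEnd ℂ (y z k)
      rw [vec_pair (hln z)]
      simp only [hY]
      show (Nat.card (Cu ((v₀ * (z : G)) ^ (j : ℕ))) : ℂ)⁻¹ *
        ∑ᶠ (s : G) (_ : s ∈ Cu ((v₀ * (z : G)) ^ (j : ℕ)) ∧ Reg ℓ s),
        gv M (Cu ((v₀ * (z : G)) ^ (j : ℕ))) ((v₀ * (z : G)) ^ (j : ℕ) * s)
          (b ((v₀ * (z : G)) ^ (j : ℕ))) χ.1.1 * starRingEnd ℂ (Yz z s) = _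
      rw [hCj z j, hbj z j]
    have hTsum : ∑ χ : X, T χ.1.1 ≤ ∑ᶠ χ ∈ Irr G, T χ := by
      rw [finsum_mem_eq_finite_toFinset_sum T irr_finite']
      have h1 : ∑ χ : X, T χ.1.1 = ∑ χ ∈ Finset.univ.image (fun χ : X => χ.1.1), T χ := by
        rw [Finset.sum_image]
        intro χ _ χ' _ h
        exact Subtype.ext (Subtype.ext h)
      rw [h1]
      apply Finset.sum_le_sum_of_subset_of_nonneg
      · intro χ hχ
        obtain ⟨χ', -, rfl⟩ := Finset.mem_image.1 hχ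
        exact (Set.Finite.mem_toFinset _).2 χ'.1.2.1.1
      · intro χ _ _
        exact Complex.normSq_nonneg _
    have hR : ∑ v ∈ q, ((((Subgroup.centralizer (V : Set G)).relIndex
          (Tg V γ ⊓ Cu v) : ℕ) : ℝ))⁻¹ * ((Nat.card (Cu v) : ℝ)⁻¹ *
          ∑ᶠ (s : G) (_ : s ∈ Cu v ∧ Reg ℓ s), Complex.normSq (Y v s)) ≤
        ∑ z, Nat.card V * ∑ k, Complex.normSq (y z k) := by
      rw [Finset.sum_image fun z _ z' _ h => hinj j h]
      refine Finset.sum_le_sum fun z _ => ?_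
      have h1 := vec_rhs (V := V) (γ := γ) (hQ z) (hln z) (y z)
      simp only [hY]
      show ((((Subgroup.centralizer (V : Set G)).relIndex
          (Tg V γ ⊓ Cu ((v₀ * (z : G)) ^ (j : ℕ))) : ℕ) : ℝ))⁻¹ *
          ((Nat.card (Cu ((v₀ * (z : G)) ^ (j : ℕ))) : ℝ)⁻¹ *
          ∑ᶠ (s : G) (_ : s ∈ Cu ((v₀ * (z : G)) ^ (j : ℕ)) ∧ Reg ℓ s),
            Complex.normSq (Yz z s)) ≤ _
      rw [hCj z j]
      exact h1
    rw [Finset.sum_congr rfl fun χ _ => (hT χ).symm]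
    calc ∑ χ : X, T χ.1.1 ≤ ∑ᶠ χ ∈ Irr G, T χ := hTsum
      _ ≤ ix V γ * ∑ v ∈ q, ((((Subgroup.centralizer (V : Set G)).relIndex
          (Tg V γ ⊓ Cu v) : ℕ) : ℝ))⁻¹ * ((Nat.card (Cu v) : ℝ)⁻¹ *
          ∑ᶠ (s : G) (_ : s ∈ Cu v ∧ Reg ℓ s), Complex.normSq (Y v s)) := hbsl
      _ ≤ ix V γ * ∑ z, Nat.card V * ∑ k, Complex.normSq (y z k) :=
          mul_le_mul_of_nonneg_left hR (Nat.cast_nonneg _)
      _ = _ := by rw [← Finset.mul_sum, mul_assoc]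
  -- the second one
  have H2 : ∀ (z : W) (χ : X),
      (Fintype.card J : ℝ) ≤ ∑ j, Real.sqrt (∑ k, Complex.normSq (bb j z χ k)) := by
    intro z χ
    rw [Finset.sum_congr rfl fun j _ => by rw [hnorm j z χ], hJcard]
    rw [hsumJ fun j => Real.sqrt ‖Mm M ℓ V γ ((v₀ * (z : G)) ^ j) (b (v₀ * z)) χ.1.1 χ.1.1‖]
    exact hGEO ℓ M hM G e V γ hL (v₀ * z) (hvz z) (b (v₀ * z)) (hb _ (hvz z)) a ha
      (hpow _ (hvz z)) χ.1.1 χ.1.2.1
  -- the third one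
  have H3 : ∀ χ : X, ∑ z, ∑ j, ∑ k, Complex.normSq (bb j z χ k) ≤
      4 * (ix V γ : ℝ) * Fintype.card W * Fintype.card J := by
    intro χ
    have h1 : ∑ z, ∑ j, ∑ k, Complex.normSq (bb j z χ k) = S χ.1 := by
      refine Finset.sum_congr rfl fun z _ => Finset.sum_congr rfl fun j _ => ?_
      rw [hnorm j z χ]
      show _ = ‖Mm M ℓ V γ ((v₀ * (z : G)) ^ (j : ℕ)) (b ((v₀ * (z : G)) ^ (j : ℕ))) χ.1.1 χ.1.1‖
      rw [hbj z j]
    rw [h1, hJcard]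
    calc S χ.1 ≤ 2 * (2 * ix V γ * Nat.card W * (un ℓ a).card) := χ.2
      _ = 4 * (ix V γ : ℝ) * Fintype.card W * (un ℓ a).card := by
          rw [Nat.card_eq_fintype_card]; ring
  -- the fourth one
  have h2K : 2 * (256 * (ix V γ : ℝ) ^ 2) < (ℓ : ℝ) ^ c := by
    have h1 : ((512 * ix V γ ^ 2 : ℕ) : ℝ) < ((ℓ ^ c : ℕ) : ℝ) := by exact_mod_cast hc
    push_cast at h1
    linarith
  have H4 : ∀ (z z' : W) (χ χ' : X),
      ∑ j, ∑ k, Complex.normSq (bb j z χ k) ≤ 256 * (ix V γ : ℝ) ^ 2 * Fintype.card J →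
      ∑ j, ∑ k, Complex.normSq (bb j z χ' k) ≤ 256 * (ix V γ : ℝ) ^ 2 * Fintype.card J →
      ∑ j, ∑ k, Complex.normSq (bb j z' χ k) ≤ 256 * (ix V γ : ℝ) ^ 2 * Fintype.card J →
      ∑ j, ∑ k, Complex.normSq (bb j z' χ' k) ≤ 256 * (ix V γ : ℝ) ^ 2 * Fintype.card J →
      ∀ j, ∑ k, bb j z χ k * starRingEnd ℂ (bb j z χ' k) =
        ∑ k, bb j z' χ k * starRingEnd ℂ (bb j z' χ' k) := by
    intro z z' χ χ' k1 k2 k3 k4 j
    have hcv : ∀ (z : W) (χ : X),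
        ∑ j, ∑ k, Complex.normSq (bb j z χ k) ≤ 256 * (ix V γ : ℝ) ^ 2 * Fintype.card J →
        ∑ j ∈ un ℓ a, ‖Mm M ℓ V γ ((v₀ * (z : G)) ^ j) (b (v₀ * z)) χ.1.1 χ.1.1‖ ≤
          256 * (ix V γ : ℝ) ^ 2 * (un ℓ a).card := by
      intro z χ h
      rw [hJcard, Finset.sum_congr rfl fun j _ => hnorm j z χ,
        hsumJ fun j => ‖Mm M ℓ V γ ((v₀ * (z : G)) ^ j) (b (v₀ * z)) χ.1.1 χ.1.1‖] at h
      exact h
    have hzz : (z : G)⁻¹ * z' ∈ W := W.mul_mem (W.inv_mem z.2) z'.2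
    have hvv : v₀ * (z : G) * ((z : G)⁻¹ * z') = v₀ * z' := by group
    have h := hEQM ℓ M hM G N hN e V γ hL c a ha (256 * (ix V γ : ℝ) ^ 2) h2K (v₀ * z) (hvz z)
      (hpow _ (hvz z)) ((z : G)⁻¹ * z') hzz (hpow _ (hWV hzz))
    rw [hvv] at h
    have h' := h (b (v₀ * z)) (b (v₀ * z')) (hb _ (hvz z)) (hb _ (hvz z')) χ.1.1 χ.1.2 χ'.1.1
      χ'.1.2 (hcv z χ k1) (hcv z χ' k2) (hcv z' χ k3) (hcv z' χ' k4) j (hJ j)
    rw [hgram, hgram, h']
  have havg := hAVG X W J β bb (ix V γ : ℝ) (ix V γ * Nat.card V : ℝ)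
    (by exact_mod_cast hixpos) (by positivity) H1 H2 H3 H4
  -- the conclusion
  have hRc : (T5.Rf M N e).ncard = Fintype.card R := by
    rw [← Nat.card_coe_set_eq, Nat.card_eq_fintype_card]
  have hXc : (Nat.card {x : R // S x ≤ 2 * B} : ℝ) = Fintype.card X := by
    rw [Nat.card_eq_fintype_card]
  rw [hXc] at hmk
  rw [hRc]
  have hfin : ((Fintype.card R * Nat.card W : ℕ) : ℝ) ≤ ((8 * β * ix V γ * Nat.card V : ℕ) : ℝ) := by
    push_cast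
    rw [Nat.card_eq_fintype_card (α := W)]
    calc (Fintype.card R : ℝ) * Fintype.card W ≤ (2 * Fintype.card X) * Fintype.card W :=
          mul_le_mul_of_nonneg_right hmk (Nat.cast_nonneg _)
      _ = 2 * (Fintype.card X * Fintype.card W) := by ring
      _ ≤ 2 * (4 * β * (ix V γ * Nat.card V)) := by
          exact mul_le_mul_of_nonneg_left havg (by norm_num)
      _ = _ := by ring
  exact_mod_cast hfin

end Pool.Agent.PP.T6.H41
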