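import Pool.Agent.AT6.Stmts3
import Pool.Agent.Helper50_PP.Chi

/-!
# Squad AT6, module FBD, part 1: linear algebra and counting
-/

open scoped BigOperators

noncomputable section

namespace Pool.Agent.PP.T6.H41

/-- Parseval -/
theorem parseval {T : Type} [Fintype T] {n : ℕ} (Q : Fin n → T → ℂ) (c : ℂ)
    (hQ : ∀ i k, c * ∑ s, Q i s * starRingEnd ℂ (Q k s) = if i = k then 1 else 0)
    (f f' : T → ℂ) (a a' : Fin n → ℂ) (hf : ∀ s, f s = ∑ i, a i * Q i s)
    (hf' : ∀ s, f' s = ∑ i, a' i * Q i s) :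
    c * ∑ s, f s * starRingEnd ℂ (f' s) = ∑ i, a i * starRingEnd ℂ (a' i) := by
  classical
  have h1 : ∀ s, f s * starRingEnd ℂ (f' s) =
      ∑ i, ∑ k, a i * starRingEnd ℂ (a' k) * (Q i s * starRingEnd ℂ (Q k s)) := by
    intro s
    rw [hf, hf', map_sum, Finset.sum_mul_sum]
    refine Finset.sum_congr rfl fun i _ => Finset.sum_congr rfl fun k _ => ?_
    rw [map_mul]
    ring
  calc c * ∑ s, f s * starRingEnd ℂ (f' s) =
      ∑ i, ∑ k, a i * starRingEnd ℂ (a' k) * (c * ∑ s, Q i s * starRingEnd ℂ (Q k s)) := by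
        simp only [h1]
        rw [Finset.sum_comm, Finset.mul_sum]
        refine Finset.sum_congr rfl fun i _ => ?_
        rw [Finset.sum_comm, Finset.mul_sum]
        refine Finset.sum_congr rfl fun k _ => ?_
        rw [← Finset.mul_sum]
        ring
    _ = ∑ i, ∑ k, a i * starRingEnd ℂ (a' k) * (if i = k then 1 else 0) := by
        refine Finset.sum_congr rfl fun i _ => Finset.sum_congr rfl fun k _ => ?_
        rw [hQ]
    _ = _ := by
        refine Finset.sum_congr rfl fun i _ => ?_
        simp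

/-- the real form for one function -/
theorem parseval_real {T : Type} [Fintype T] {n : ℕ} (Q : Fin n → T → ℂ) (c : ℝ)
    (hQ : ∀ i k, (c : ℂ) * ∑ s, Q i s * starRingEnd ℂ (Q k s) = if i = k then 1 else 0)
    (f : T → ℂ) (a : Fin n → ℂ) (hf : ∀ s, f s = ∑ i, a i * Q i s) :
    c * ∑ s, Complex.normSq (f s) = ∑ i, Complex.normSq (a i) := by
  have h := parseval Q c hQ f f a a hf hf
  have h1 : ((c * ∑ s, Complex.normSq (f s) : ℝ) : ℂ) = ((∑ i, Complex.normSq (a i) : ℝ) : ℂ) := by
    push_cast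
    simp only [← Complex.mul_conj]
    exact h
  exact_mod_cast h1

/-- Markov's inequality: at least half of the elements are good. -/
theorem markov {X : Type} [Fintype X] (S : X → ℝ) (B : ℝ) (hB : 0 < B) (hS : ∀ x, 0 ≤ S x)
    (h : ∑ x, S x ≤ Fintype.card X * B) :
    (Fintype.card X : ℝ) ≤ 2 * Nat.card {x : X // S x ≤ 2 * B} := by
  classical
  have h1 : (Nat.card {x : X // S x ≤ 2 * B}) = (Finset.univ.filter fun x => S x ≤ 2 * B).card := by
    rw [Nat.card_eq_fintype_card, Fintype.card_subtype]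
  have h2 : (Finset.univ.filter fun x => S x ≤ 2 * B).card +
      (Finset.univ.filter fun x => ¬ S x ≤ 2 * B).card = Fintype.card X := by
    rw [Finset.card_filter_add_card_filter_not]
    rfl
  have h3 : ((Finset.univ.filter fun x => ¬ S x ≤ 2 * B).card : ℝ) * (2 * B) ≤ ∑ x, S x := by
    rw [← nsmul_eq_mul]
    calc (Finset.univ.filter fun x => ¬ S x ≤ 2 * B).card • (2 * B) ≤
        ∑ x ∈ Finset.univ.filter (fun x => ¬ S x ≤ 2 * B), S x := by
          apply Finset.card_nsmul_le_sum
          intro x hx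
          exact (not_le.1 (Finset.mem_filter.1 hx).2).le
      _ ≤ ∑ x, S x := Finset.sum_le_sum_of_subset_of_nonneg (Finset.filter_subset _ _)
          (fun x _ _ => hS x)
  have h4 : ((Finset.univ.filter fun x => S x ≤ 2 * B).card : ℝ) +
      (Finset.univ.filter fun x => ¬ S x ≤ 2 * B).card = Fintype.card X := by exact_mod_cast h2
  rw [h1]
  have h5 : ((Finset.univ.filter fun x => ¬ S x ≤ 2 * B).card : ℝ) * 2 ≤ Fintype.card X := by
    have h6 := h3.trans h
    have h7 : ((Finset.univ.filter fun x => ¬ S x ≤ 2 * B).card : ℝ) * 2 * B ≤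
        Fintype.card X * B := by linarith
    exact le_of_mul_le_mul_right h7 hB
  linarith

end Pool.Agent.PP.T6.H41
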