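import Pool.Agent.Helper41_AT6.FBD0

/-!
# Squad AT6, module FBD, part 2: the vectors of a section
-/

open scoped BigOperators

noncomputable section

set_option linter.unusedSectionVars false

namespace Pool.Agent.PP.T6.H41

open Pool.Agent.Helper51_AWC Pool.Agent.Helper79_WRA Pool.Agent.PP Pool.Agent.PP.KF
open Pool.Agent.PP.K9 Pool.Agent.PP.K9.H97 Pool.Agent.PP.H75 Pool.Agent.PP.T3 Pool.Agent.PP.T2

attribute [local instance] Ideal.Quotient.field

section sums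

variable {G : Type} [Group G] {A : Type} [AddCommMonoid A]

theorem sum_cond {p : G → Prop} [Fintype {s : G // p s}] (f : G → A) :
    ∑ᶠ (s : G) (_ : p s), f s = ∑ s : {s : G // p s}, f s := by
  rw [← finsum_eq_sum_of_fintype]
  exact (finsum_subtype_eq_finsum_cond (f := f) p).symm

end sums

variable {G : Type} [Group G] [Finite G] (M : Ideal (integralClosure ℤ ℂ)) [M.IsMaximal]

/-- the coordinate of `s ↦ gv M (Cu v) (w s) b χ` -/
def co (ℓ : ℕ) (v : G) (b : G → FF M) (w : G) (χ : G → ℂ) (q : G → ℂ) : ℂ :=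
  (Nat.card (Cu v) : ℂ)⁻¹ *
    ∑ᶠ (s' : G) (_ : s' ∈ Cu v ∧ Reg ℓ s'), gv M (Cu v) (w * s') b χ * starRingEnd ℂ (q s')

/-- an orthonormal system in which the functions `s ↦ gv M (Cu v) (w s) b χ` can be expanded -/
structure Os (ℓ : ℕ) (v : G) (b : G → FF M) (n : ℕ) (Q : Fin n → G → ℂ) : Prop where
  orth : ∀ i k, (Nat.card (Cu v) : ℂ)⁻¹ * ∑ᶠ (s : G) (_ : s ∈ Cu v ∧ Reg ℓ s),
      Q i s * starRingEnd ℂ (Q k s) = if i = k then 1 else 0
  ex : ∀ w : G, (∀ c ∈ Cu v, w * c = c * w) → ∀ χ ∈ Irr G, ∀ s ∈ Cu v, Reg ℓ s →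
      gv M (Cu v) (w * s) b χ = ∑ i, co M ℓ v b w χ (Q i) * Q i s

variable {M} {ℓ : ℕ} {v : G} {b : G → FF M} {n : ℕ} {Q : Fin n → G → ℂ}

theorem Os.gram (h : Os M ℓ v b n Q) {w : G} (hw : ∀ c ∈ Cu v, w * c = c * w) {χ χ' : G → ℂ}
    (hχ : χ ∈ Irr G) (hχ' : χ' ∈ Irr G) :
    (Nat.card (Cu v) : ℂ)⁻¹ * ∑ᶠ (s : G) (_ : s ∈ Cu v ∧ Reg ℓ s),
      gv M (Cu v) (w * s) b χ * starRingEnd ℂ (gv M (Cu v) (w * s) b χ') =
    ∑ i, co M ℓ v b w χ (Q i) * starRingEnd ℂ (co M ℓ v b w χ' (Q i)) := by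
  classical
  have := Fintype.ofFinite {s : G // s ∈ Cu v ∧ Reg ℓ s}
  rw [sum_cond]
  refine parseval (fun i (s : {s : G // s ∈ Cu v ∧ Reg ℓ s}) => Q i s) _ ?_
    (fun s : {s : G // s ∈ Cu v ∧ Reg ℓ s} => gv M (Cu v) (w * s) b χ)
    (fun s : {s : G // s ∈ Cu v ∧ Reg ℓ s} => gv M (Cu v) (w * s) b χ') _ _ ?_ ?_
  · intro i k
    rw [← h.orth i k, sum_cond]
  · intro s
    exact h.ex w hw χ hχ s s.2.1 s.2.2
  · intro s
    exact h.ex w hw χ' hχ' s s.2.1 s.2.2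

/-- the inner product with a combination of the `Q i` -/
theorem Os.inner (χ : G → ℂ) (w : G) (y : Fin n → ℂ) :
    (Nat.card (Cu v) : ℂ)⁻¹ * ∑ᶠ (s : G) (_ : s ∈ Cu v ∧ Reg ℓ s),
      gv M (Cu v) (w * s) b χ * starRingEnd ℂ (∑ i, y i * Q i s) =
    ∑ i, co M ℓ v b w χ (Q i) * starRingEnd ℂ (y i) := by
  classical
  have := Fintype.ofFinite {s : G // s ∈ Cu v ∧ Reg ℓ s}
  unfold co
  simp only [sum_cond]
  simp only [map_sum, map_mul, Finset.mul_sum, Finset.sum_mul]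
  rw [Finset.sum_comm]
  refine Finset.sum_congr rfl fun i _ => Finset.sum_congr rfl fun s _ => ?_
  ring

/-- the norm of a combination of the `Q i` -/
theorem Os.norm (h : Os M ℓ v b n Q) (y : Fin n → ℂ) :
    (Nat.card (Cu v) : ℝ)⁻¹ * ∑ᶠ (s : G) (_ : s ∈ Cu v ∧ Reg ℓ s),
      Complex.normSq (∑ i, y i * Q i s) = ∑ i, Complex.normSq (y i) := by
  classical
  have := Fintype.ofFinite {s : G // s ∈ Cu v ∧ Reg ℓ s}
  rw [sum_cond]
  refine parseval_real (fun i (s : {s : G // s ∈ Cu v ∧ Reg ℓ s}) => Q i s) _ ?_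
    (fun s : {s : G // s ∈ Cu v ∧ Reg ℓ s} => ∑ i, y i * Q i s) y (fun s => rfl)
  intro i k
  rw [← h.orth i k, sum_cond]
  push_cast
  rfl

/-- extension by zero -/
def ez (n β : ℕ) (x : Fin n → ℂ) (k : Fin β) : ℂ := if h : (k : ℕ) < n then x ⟨k, h⟩ else 0

theorem ez_sum {n β : ℕ} (hn : n ≤ β) (x y : Fin n → ℂ) (f : ℂ → ℂ → ℂ) (hf : f 0 0 = 0) :
    ∑ k, f (ez n β x k) (ez n β y k) = ∑ i, f (x i) (y i) := by
  classical
  have h1 : ∀ k : Fin β, f (ez n β x k) (ez n β y k) =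
      if h : (k : ℕ) < n then f (x ⟨k, h⟩) (y ⟨k, h⟩) else 0 := by
    intro k
    unfold ez
    by_cases h : (k : ℕ) < n
    · rw [dif_pos h, dif_pos h, dif_pos h]
    · rw [dif_neg h, dif_neg h, dif_neg h, hf]
  rw [Finset.sum_congr rfl fun k _ => h1 k]
  symm
  apply Finset.sum_of_injOn (fun i : Fin n => (Fin.castLE hn i : Fin β))
  · intro i _ j _ hij
    exact Fin.castLE_injective hn hij
  · intro i _
    exact Finset.mem_univ _
  · intro k _ hk
    by_cases h : (k : ℕ) < n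
    · exact absurd ⟨⟨k, h⟩, by simp, Fin.ext rfl⟩ hk
    · rw [dif_neg h]
  · intro i _
    have h : ((Fin.castLE hn i : Fin β) : ℕ) < n := i.2
    show f (x i) (y i) = if h : ((Fin.castLE hn i : Fin β) : ℕ) < n then _ else _
    rw [dif_pos h]
    rfl

/-- pairing with the extension by zero -/
theorem ez_pair {n β : ℕ} (hn : n ≤ β) (x : Fin n → ℂ) (y : Fin β → ℂ) :
    ∑ k, ez n β x k * starRingEnd ℂ (y k) =
      ∑ i, x i * starRingEnd ℂ (y (Fin.castLE hn i)) := by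
  classical
  symm
  apply Finset.sum_of_injOn (fun i : Fin n => (Fin.castLE hn i : Fin β))
  · intro i _ j _ hij
    exact Fin.castLE_injective hn hij
  · intro i _
    exact Finset.mem_univ _
  · intro k _ hk
    unfold ez
    by_cases h : (k : ℕ) < n
    · exact absurd ⟨⟨k, h⟩, by simp, Fin.ext rfl⟩ hk
    · rw [dif_neg h, zero_mul]
  · intro i _
    show _ = ez n β x (Fin.castLE hn i) * _
    unfold ez
    have h : ((Fin.castLE hn i : Fin β) : ℕ) < n := i.2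
    rw [dif_pos h]
    rfl

theorem ez_le {n β : ℕ} (hn : n ≤ β) (y : Fin β → ℂ) :
    ∑ i : Fin n, Complex.normSq (y (Fin.castLE hn i)) ≤ ∑ k, Complex.normSq (y k) := by
  classical
  calc ∑ i : Fin n, Complex.normSq (y (Fin.castLE hn i)) =
      ∑ k ∈ Finset.univ.map (Fin.castLEEmb hn), Complex.normSq (y k) := by
        rw [Finset.sum_map]
        rfl
    _ ≤ _ := Finset.sum_le_sum_of_subset_of_nonneg (Finset.subset_univ _)
        (fun k _ _ => Complex.normSq_nonneg _)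

end Pool.Agent.PP.T6.H41
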